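import Pool.Agent.H798.BV.Stm4

set_option autoImplicit false

/-! (ET) for helper798 (helper977): decay of the product and the tail of the integral. -/

namespace Pool.Agent.H977.BV

open Pool.Agent.H798.BV

theorem et_one (m : ℕ) (l : Fin m → ℂ) (a δ : ℝ) (hm : 1 ≤ m) (ha : 0 < a) (ha1 : a ≤ 1)
    (hδ : 0 < δ) (h : ∑ k, ‖1 - (a : ℂ) * l k‖ ≤ (1 - δ) * m) (t : ℝ) (ht0 : 0 ≤ t)
    (ht : t ≤ a * m) : ‖∏ k, (1 - ((t / m : ℝ) : ℂ) * l k)‖ ≤ Real.exp (-(δ * t)) := by
  have hm' : (0 : ℝ) < m := by exact_mod_cast hm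
  set v : ℝ := t / m / a with hv
  have hv0 : 0 ≤ v := by positivity
  have hv1 : v ≤ 1 := by
    rw [hv, div_div, div_le_one (by positivity)]
    linarith
  have hva : v * a = t / m := by
    rw [hv]
    field_simp
  have h1 : ∀ k : Fin m, ‖1 - ((t / m : ℝ) : ℂ) * l k‖ ≤
      Real.exp (-(v * (1 - ‖1 - (a : ℂ) * l k‖))) := by
    intro k
    have e : 1 - ((t / m : ℝ) : ℂ) * l k =
        ((1 - v : ℝ) : ℂ) + ((v : ℝ) : ℂ) * (1 - (a : ℂ) * l k) := by
      rw [← hva]
      push_cast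
      ring
    have h2 : ‖1 - ((t / m : ℝ) : ℂ) * l k‖ ≤ (1 - v) + v * ‖1 - (a : ℂ) * l k‖ := by
      rw [e]
      refine (norm_add_le _ _).trans (le_of_eq ?_)
      rw [norm_mul, Complex.norm_real, Complex.norm_real, Real.norm_eq_abs, Real.norm_eq_abs,
        abs_of_nonneg hv0, abs_of_nonneg (by linarith : 0 ≤ 1 - v)]
    have h3 := Real.add_one_le_exp (-(v * (1 - ‖1 - (a : ℂ) * l k‖)))
    linarith
  rw [norm_prod]
  refine (Finset.prod_le_prod (fun k _ => norm_nonneg _) fun k _ => h1 k).trans ?_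
  rw [← Real.exp_sum]
  apply Real.exp_le_exp.2
  rw [Finset.sum_neg_distrib, ← Finset.mul_sum, Finset.sum_sub_distrib, Finset.sum_const,
    Finset.card_univ, Fintype.card_fin, nsmul_eq_mul, mul_one, neg_le_neg_iff]
  have h4 : δ * m ≤ m - ∑ k, ‖1 - (a : ℂ) * l k‖ := by linarith
  have h5 : v * (δ * m) ≤ v * (m - ∑ k, ‖1 - (a : ℂ) * l k‖) :=
    mul_le_mul_of_nonneg_left h4 hv0
  refine le_trans ?_ h5
  have h6 : v * (δ * m) = δ * t / a := by
    rw [hv]
    field_simp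
  rw [h6, le_div_iff₀ ha]
  exact mul_le_of_le_one_right (by positivity) ha1

theorem t_ET : S_ET := by
  intro m l a δ hm ha ha1 hδ h
  refine ⟨et_one m l a δ hm ha ha1 hδ h, fun T hT0 hT => ?_⟩
  have hc : Continuous fun t : ℝ => Real.exp (-(δ * t)) := by fun_prop
  have h1 : ‖∫ t in T..(a * m), ∏ k, (1 - ((t / m : ℝ) : ℂ) * l k)‖ ≤
      ∫ t in T..(a * m), Real.exp (-(δ * t)) := by
    refine intervalIntegral.norm_integral_le_of_norm_le hT
      (Filter.Eventually.of_forall fun t ht => ?_) (hc.intervalIntegrable _ _)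
    exact et_one m l a δ hm ha ha1 hδ h t (hT0.trans ht.1.le) ht.2
  have h2 : ∫ t in T..(a * m), Real.exp (-(δ * t)) =
      (Real.exp (-(δ * T)) - Real.exp (-(δ * (a * m)))) / δ := by
    have e : (fun t : ℝ => Real.exp (-(δ * t))) = fun t : ℝ => Real.exp ((-δ) * t) := by
      funext t
      rw [neg_mul]
    rw [e, intervalIntegral.integral_comp_mul_left (f := Real.exp) (neg_ne_zero.2 hδ.ne'),
      integral_exp, smul_eq_mul, neg_mul, neg_mul, inv_neg]
    field_simp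
    ring
  rw [h2] at h1
  refine h1.trans (div_le_div_of_nonneg_right ?_ hδ.le)
  linarith [Real.exp_pos (-(δ * (a * m)))]

end Pool.Agent.H977.BV
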